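import Pool.Agent.L0h16.VO.Defs

/-!
# The principal congruence subgroup has finitely many cosets
-/

set_option autoImplicit false

open scoped Matrix

namespace Pool.Agent.L0h66.VO

open Pool.Agent.L0h16.VO

theorem t_GLF : S_GLF := by
  intro m N hN
  have : NeZero N := ⟨by omega⟩
  classical
  obtain ⟨c, hc⟩ : ∃ c : Matrix (Fin m) (Fin m) ℤ → Matrix (Fin m) (Fin m) (ZMod N) × Bool,
      ∀ A, c A = (A.map (Int.cast : ℤ → ZMod N), decide (A.det = 1)) := ⟨_, fun _ => rfl⟩
  obtain ⟨S, hS⟩ : ∃ S : Finset (Matrix (Fin m) (Fin m) (ZMod N) × Bool),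
      ∀ x, x ∈ S ↔ ∃ A : Matrix (Fin m) (Fin m) ℤ, IsUnit A.det ∧ c A = x :=
    ⟨Finset.univ.filter fun x => ∃ A : Matrix (Fin m) (Fin m) ℤ, IsUnit A.det ∧ c A = x,
      fun x => by simp⟩
  have hsec : ∀ x : Matrix (Fin m) (Fin m) (ZMod N) × Bool, ∃ A : Matrix (Fin m) (Fin m) ℤ,
      x ∈ S → IsUnit A.det ∧ c A = x := by
    intro x
    by_cases hx : x ∈ S
    · obtain ⟨A, hA⟩ := (hS x).mp hx
      exact ⟨A, fun _ => hA⟩
    · exact ⟨0, fun h => absurd h hx⟩
  choose sec hsec using hsec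
  refine ⟨S.image sec, ?_, ?_⟩
  · intro r hr
    obtain ⟨x, hx, rfl⟩ := Finset.mem_image.mp hr
    exact (hsec x hx).1
  · intro A hA
    have hx : c A ∈ S := (hS _).mpr ⟨A, hA, rfl⟩
    obtain ⟨r, hr⟩ : ∃ r, r = sec (c A) := ⟨_, rfl⟩
    have h1 := hsec (c A) hx
    rw [← hr] at h1
    obtain ⟨hu, hcr⟩ := h1
    refine ⟨r, by rw [hr]; exact Finset.mem_image_of_mem _ hx, A * r⁻¹, ?_, ?_, ?_⟩
    · rw [Matrix.det_mul, Matrix.det_nonsing_inv]
      rw [hc, hc] at hcr
      have h2 : decide (r.det = 1) = decide (A.det = 1) := congrArg Prod.snd hcr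
      rw [decide_eq_decide] at h2
      have h3 : A.det = r.det := by
        rcases Int.isUnit_iff.mp hA with a | a <;> rcases Int.isUnit_iff.mp hu with b | b
        · rw [a, b]
        · rw [h2.mpr a] at b
          exact absurd b (by norm_num)
        · rw [h2.mp b] at a
          exact absurd a (by norm_num)
        · rw [a, b]
      rw [h3]
      exact Ring.mul_inverse_cancel _ hu
    · have h2 : r.map (Int.cast : ℤ → ZMod N) = A.map (Int.cast : ℤ → ZMod N) := by
        rw [hc, hc] at hcr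
        exact congrArg Prod.fst hcr
      have h3 : A * r⁻¹ - 1 = (A - r) * r⁻¹ := by
        rw [Matrix.sub_mul, Matrix.mul_nonsing_inv r hu]
      intro i j
      rw [h3, Matrix.mul_apply]
      apply Finset.dvd_sum
      intro k _
      apply Dvd.dvd.mul_right
      rw [← ZMod.intCast_zmod_eq_zero_iff_dvd] 
      have h4 := congrFun (congrFun h2 i) k
      rw [Matrix.map_apply, Matrix.map_apply] at h4
      rw [Matrix.sub_apply, Int.cast_sub, h4, sub_self]
    · rw [Matrix.mul_assoc, Matrix.nonsing_inv_mul r hu, Matrix.mul_one]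

end Pool.Agent.L0h66.VO
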