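import Pool.Agent.L0h16.VO.Defs

/-!
# Rational positive semidefinite matrices are sums of rational squares
-/

set_option autoImplicit false

open scoped Matrix

namespace Pool.Agent.L0h66.VO

open Pool.Agent.L0h16.VO

/-- a finite sum over an index set -/
lemma collect {m : ℕ} {ι : Type} [Fintype ι] (c : ι → ℚ) (hc : ∀ i, 0 ≤ c i)
    (v : ι → Fin m → ℤ) : ∃ F : Finset (Fin m → ℤ), ∃ a : (Fin m → ℤ) → ℚ,
      (∀ u ∈ F, u ≠ 0) ∧ (∀ u, 0 ≤ a u) ∧
      ∑ i, ((c i : ℚ) : ℝ) • L0h16.VO.sq (rv (v i)) = ∑ u ∈ F, (a u : ℝ) • L0h16.VO.sq (rv u) := by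
  classical
  refine ⟨(Finset.univ.image v).filter (fun u => u ≠ 0),
    fun u => ∑ i ∈ Finset.univ.filter (fun i => v i = u), c i, ?_, ?_, ?_⟩
  · intro u hu
    exact (Finset.mem_filter.mp hu).2
  · intro u
    exact Finset.sum_nonneg fun i _ => hc i
  · rw [← Finset.sum_fiberwise_of_maps_to (s := Finset.univ) (t := Finset.univ.image v) (g := v)
      (fun i hi => Finset.mem_image_of_mem v hi)]
    rw [Finset.sum_filter]
    refine Finset.sum_congr rfl fun u _ => ?_
    have e : ∑ i ∈ Finset.univ.filter (fun i => v i = u), ((c i : ℚ) : ℝ) • L0h16.VO.sq (rv (v i)) =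
        ((∑ i ∈ Finset.univ.filter (fun i => v i = u), c i : ℚ) : ℝ) • L0h16.VO.sq (rv u) := by
      rw [Rat.cast_sum, Finset.sum_smul]
      refine Finset.sum_congr rfl fun i hi => ?_
      rw [(Finset.mem_filter.mp hi).2]
    rw [e]
    by_cases hu : u = 0
    · rw [if_neg (by simpa using hu), hu]
      have h0 : L0h16.VO.sq (rv (0 : Fin m → ℤ)) = 0 := by
        ext i j
        simp [L0h16.VO.sq, rv]
      rw [h0, smul_zero]
    · rw [if_pos hu]

lemma rdec_rat (m : ℕ) (q : Matrix (Fin m) (Fin m) ℚ) (hs : ∀ i j, q i j = q j i)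
    (hp : ∀ v : Fin m → ℚ, 0 ≤ ∑ i, ∑ j, v i * (v j * q i j)) :
    ∃ (n : ℕ) (w : Fin n → ℚ) (L : Fin n → Fin m → ℚ), (∀ i, 0 ≤ w i) ∧
      ∀ j k, q j k = ∑ i, w i * (L i j * L i k) := by
  obtain ⟨B, hB⟩ : ∃ B : LinearMap.BilinForm ℚ (Fin m → ℚ), B = Matrix.toLinearMap₂' ℚ q := ⟨_, rfl⟩
  obtain ⟨Q, hQ⟩ : ∃ Q : QuadraticForm ℚ (Fin m → ℚ), Q = B.toQuadraticMap := ⟨_, rfl⟩
  have hBv : ∀ v u, B v u = ∑ i, ∑ j, v i * (u j * q i j) := by
    intro v u
    rw [hB]
    exact Matrix.toLinearMap₂'_apply q v u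
  have hBs : ∀ j k, B (Pi.single j 1) (Pi.single k 1) = q j k := by
    intro j k
    rw [hBv, Finset.sum_eq_single j, Finset.sum_eq_single k]
    · rw [Pi.single_eq_same, Pi.single_eq_same, one_mul, one_mul]
    · intro b _ hb
      rw [Pi.single_eq_of_ne hb, zero_mul, mul_zero]
    · intro h; exact absurd (Finset.mem_univ k) h
    · intro b _ hb
      refine Finset.sum_eq_zero fun c _ => ?_
      rw [Pi.single_eq_of_ne hb, zero_mul]
    · intro h; exact absurd (Finset.mem_univ j) h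
  have hQv : ∀ v, Q v = ∑ i, ∑ j, v i * (v j * q i j) := by
    intro v
    rw [hQ, LinearMap.BilinMap.toQuadraticMap_apply, hBv]
  have hQp : ∀ v u, QuadraticMap.polar Q v u = B v u + B u v := by
    intro v u
    rw [hQ]
    exact LinearMap.BilinMap.polar_toQuadraticMap v u
  obtain ⟨w, ⟨e⟩⟩ := QuadraticForm.equivalent_weightedSumSquares Q
  refine ⟨_, w, fun i j => e (Pi.single j 1) i, ?_, ?_⟩
  · intro i
    have h1 : Q (e.symm (Pi.single i 1)) = w i := by
      rw [← e.map_app, QuadraticMap.IsometryEquiv.apply_symm_apply,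
        QuadraticMap.weightedSumSquares_apply, Finset.sum_eq_single i]
      · simp
      · intro j _ hj
        simp [Pi.single_eq_of_ne hj]
      · intro h; exact absurd (Finset.mem_univ i) h
    rw [← h1, hQv]
    exact hp _
  · intro j k
    have h1 : QuadraticMap.polar Q (Pi.single j 1) (Pi.single k 1) = 2 * q j k := by
      rw [hQp, hBs, hBs, hs k j]
      ring
    have h2 : QuadraticMap.polar Q (Pi.single j 1) (Pi.single k 1) =
        ∑ i, w i * (2 * (e (Pi.single j 1) i * e (Pi.single k 1) i)) := by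
      unfold QuadraticMap.polar
      rw [← e.map_app, ← e.map_app, ← e.map_app, QuadraticMap.weightedSumSquares_apply,
        QuadraticMap.weightedSumSquares_apply, QuadraticMap.weightedSumSquares_apply,
        ← Finset.sum_sub_distrib, ← Finset.sum_sub_distrib]
      refine Finset.sum_congr rfl fun i _ => ?_
      have h3 : e (Pi.single j 1 + Pi.single k 1) = e (Pi.single j 1) + e (Pi.single k 1) :=
        map_add e.toLinearEquiv _ _
      rw [h3]
      simp only [Pi.add_apply, smul_eq_mul]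
      ring
    rw [h1] at h2
    have h4 : ∑ i, w i * (2 * (e (Pi.single j 1) i * e (Pi.single k 1) i)) =
        2 * ∑ i, w i * (e (Pi.single j 1) i * e (Pi.single k 1) i) := by
      rw [Finset.mul_sum]
      exact Finset.sum_congr rfl fun i _ => by ring
    rw [h4] at h2
    linarith

theorem t_RDEC : S_RDEC := by
  intro m x hx hq
  choose q hq using hq
  have hs : ∀ i j, q i j = q j i := by
    intro i j
    have h1 := hx.1 i j
    rw [hq, hq] at h1
    exact_mod_cast h1
  obtain ⟨n, w, L, hw, hL⟩ := rdec_rat m q hs (by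
    intro v
    have h1 := hx.2 (fun i => (v i : ℝ))
    have h2 : qf x (fun i => (v i : ℝ)) = ((∑ i, ∑ j, v i * (v j * q i j) : ℚ) : ℝ) := by
      unfold qf
      push_cast
      refine Finset.sum_congr rfl fun i _ => Finset.sum_congr rfl fun j _ => ?_
      rw [hq]
      ring
    rw [h2] at h1
    exact_mod_cast h1)
  -- a common denominator
  obtain ⟨D, hD⟩ : ∃ D : ℕ, D = ∏ i, ∏ j, (L i j).den := ⟨_, rfl⟩
  have hD0 : D ≠ 0 := by
    rw [hD, Finset.prod_ne_zero_iff]
    intro i _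
    rw [Finset.prod_ne_zero_iff]
    intro j _
    exact (L i j).den_nz
  have hv : ∀ i j, ∃ z : ℤ, (z : ℚ) = L i j * D := by
    intro i j
    have h1 : (L i j).den ∣ D := by
      rw [hD]
      exact (Finset.dvd_prod_of_mem (fun j => (L i j).den) (Finset.mem_univ j)).trans
        (Finset.dvd_prod_of_mem (fun i => ∏ j, (L i j).den) (Finset.mem_univ i))
    obtain ⟨c, hc⟩ := h1
    refine ⟨(L i j).num * c, ?_⟩
    rw [hc]
    push_cast
    rw [← mul_assoc, Rat.mul_den_eq_num]
  choose v hv using hv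
  have hDq : (D : ℚ) ≠ 0 := by exact_mod_cast hD0
  obtain ⟨F, a, h1, h2, h3⟩ := collect (fun i => w i / (D:ℚ) ^ 2)
    (fun i => div_nonneg (hw i) (by positivity)) v
  refine ⟨F, a, h1, h2, ?_⟩
  rw [← h3]
  ext j k
  rw [hq, hL, Matrix.sum_apply]
  push_cast
  refine Finset.sum_congr rfl fun i _ => ?_
  show _ = ((w i : ℝ) / (D:ℝ) ^ 2) * (((v i j : ℤ) : ℝ) * ((v i k : ℤ) : ℝ))
  have e1 : ((v i j : ℤ) : ℝ) = (L i j : ℝ) * D := by
    have := congrArg (fun y : ℚ => (y : ℝ)) (hv i j)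
    push_cast at this
    exact this
  have e2 : ((v i k : ℤ) : ℝ) = (L i k : ℝ) * D := by
    have := congrArg (fun y : ℚ => (y : ℝ)) (hv i k)
    push_cast at this
    exact this
  have hDr : (D : ℝ) ≠ 0 := by exact_mod_cast hD0
  rw [e1, e2]
  field_simp

end Pool.Agent.L0h66.VO
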